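import Pool.Agent.U325.PQ.Energy

/-!
The means over the constant terms and over the divisors.
-/

set_option autoImplicit false

namespace Pool.Agent.U325.PQ

open Finset Filter Topology
open Pool.Agent.U325.PB

/-- `λ(m) ∑_{e ∣ m} σ(e)` -/
noncomputable def ww (σ : ℕ → ℝ) (m : ℕ) : ℝ := lam m * ∑ e ∈ m.divisors, σ e

lemma ww_eq (σ : ℕ → ℝ) (Z m : ℕ) (hm : 1 ≤ m) (hσ : ∀ e, Z < e → σ e = 0) : ww σ m = ∑ e ∈ Icc 1 Z, σ e * vE e m := by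
  have h1 : ∑ e ∈ Icc 1 Z, σ e * vE e m = ∑ e ∈ (Icc 1 Z).filter (fun e => e ∣ m), lam m * σ e := by
    rw [sum_filter]
    refine sum_congr rfl fun e _ => ?_
    unfold vE
    split_ifs
    · ring
    · ring
  rw [h1]
  unfold ww
  rw [mul_sum]
  symm
  refine sum_subset ?_ ?_
  · intro e he
    rw [mem_filter] at he
    exact Nat.mem_divisors.2 ⟨he.2, by omega⟩
  · intro e he he2
    rw [Nat.mem_divisors] at he
    have h2 : σ e = 0 := by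
      refine hσ e ?_
      by_contra hcon
      push Not at hcon
      apply he2
      rw [mem_filter, mem_Icc]
      exact ⟨⟨Nat.pos_of_dvd_of_pos he.1 (by omega), hcon⟩, he.1⟩
    rw [h2, mul_zero]

lemma ww_sup (σ : ℕ → ℝ) (C Z Y : ℕ) (B N : ℝ) (hB : 0 ≤ B) (hN : 0 < N) (hZ : Z ≤ Y) (hσ : ∀ e, Z < e → σ e = 0)
    (hσ2 : ∀ e, |σ e| ≤ B * (e.divisors.card : ℝ) ^ C)
    (hS : ∀ d ∈ Icc 1 Z, ∀ t : ℝ, ‖G (vE d) Y t‖ ≤ Y / d / N) (t : ℝ) :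
    ‖G (ww σ) Y t‖ ≤ Y * (B * Pool.Agent.U325.PB.tsum C Y / N) := by
  have h1 : G (ww σ) Y t = ∑ e ∈ Icc 1 Z, (σ e : ℂ) * G (vE e) Y t := by
    unfold G
    simp only [mul_sum]
    rw [sum_comm]
    refine sum_congr rfl fun l hl => ?_
    rw [mem_Icc] at hl
    rw [ww_eq σ Z l hl.1 hσ]
    push_cast
    rw [sum_mul]
    exact sum_congr rfl fun e _ => by ring
  rw [h1]
  refine (norm_sum_le _ _).trans ?_
  calc ∑ e ∈ Icc 1 Z, ‖(σ e : ℂ) * G (vE e) Y t‖ ≤ ∑ e ∈ Icc 1 Z, Y * (B / N) * ((e.divisors.card : ℝ) ^ C / e) := by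
        refine sum_le_sum fun e he => ?_
        rw [norm_mul, Complex.norm_real, Real.norm_eq_abs]
        have her : (0 : ℝ) < e := by exact_mod_cast (mem_Icc.1 he).1
        calc |σ e| * ‖G (vE e) Y t‖ ≤ (B * (e.divisors.card : ℝ) ^ C) * (Y / e / N) :=
              mul_le_mul (hσ2 e) (hS e he t) (norm_nonneg _) (by positivity)
          _ = _ := by field_simp
    _ = Y * (B / N) * ∑ e ∈ Icc 1 Z, (e.divisors.card : ℝ) ^ C / e := by rw [mul_sum]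
    _ ≤ Y * (B / N) * Pool.Agent.U325.PB.tsum C Y := by
        refine mul_le_mul_of_nonneg_left ?_ (by positivity)
        unfold Pool.Agent.U325.PB.tsum
        exact sum_le_sum_of_subset_of_nonneg (Icc_subset_Icc_right hZ) fun _ _ _ => by positivity
    _ = _ := by ring

lemma ww_sq (σ : ℕ → ℝ) (C Y : ℕ) (B : ℝ) (hB : 0 ≤ B) (hσ2 : ∀ e, |σ e| ≤ B * (e.divisors.card : ℝ) ^ C) :
    ∑ n ∈ Icc 1 Y, ww σ n ^ 2 ≤ B ^ 2 * (Y * Pool.Agent.U325.PB.tsum (2 * C + 2) Y) := by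
  have h1 : ∀ n ∈ Icc 1 Y, ww σ n ^ 2 ≤ B ^ 2 * (n.divisors.card : ℝ) ^ (2 * C + 2) := by
    intro n hn
    rw [mem_Icc] at hn
    have h2 : |ww σ n| ≤ B * (n.divisors.card : ℝ) ^ (C + 1) := by
      unfold ww
      rw [abs_mul, lam_abs, one_mul]
      refine (abs_sum_le_sum_abs _ _).trans ?_
      calc ∑ e ∈ n.divisors, |σ e| ≤ ∑ _e ∈ n.divisors, B * (n.divisors.card : ℝ) ^ C := by
            refine sum_le_sum fun e he => (hσ2 e).trans ?_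
            refine mul_le_mul_of_nonneg_left (pow_le_pow_left₀ (Nat.cast_nonneg _) ?_ C) hB
            exact_mod_cast Finset.card_le_card (Nat.divisors_subset_of_dvd (by omega) (Nat.dvd_of_mem_divisors he))
        _ = _ := by rw [sum_const, nsmul_eq_mul]; ring
    rw [← sq_abs]
    calc |ww σ n| ^ 2 ≤ (B * (n.divisors.card : ℝ) ^ (C + 1)) ^ 2 := pow_le_pow_left₀ (abs_nonneg _) h2 2
      _ = _ := by rw [mul_pow, ← pow_mul]; ring_nf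
  refine (sum_le_sum h1).trans ?_
  rw [← mul_sum]
  exact mul_le_mul_of_nonneg_left (tau_sum _ Y) (sq_nonneg _)

/-- the sum over `n`, divisor by divisor -/
noncomputable def T1 (α β x : ℕ) (a : ℕ → ℕ → ℝ) (d c : ℕ) : ℝ := ∑ n ∈ Icc 1 x, a d n * vE d (P α β n + c)

/-- the sum over `n`, for a fixed sieve function -/
noncomputable def T2 (α β x : ℕ) (b σ : ℕ → ℝ) (c : ℕ) : ℝ := ∑ n ∈ Icc 1 x, b n * ww σ (P α β n + c)

/-- **The mean over the divisors.** -/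
theorem mean1 (x Y α β Z C U V : ℕ) (L : ℝ) (hL : 1 ≤ L) (hx : 1 ≤ x) (hα : 1 ≤ α)
    (hY : α * x ^ 2 + β * x + x ^ 2 ≤ Y) (hY3 : (Y : ℝ) ≤ 3 * (x : ℝ) ^ 2 * L ^ C) (hlog : 1 + Real.log Y ≤ 4 * L)
    (hS : ∀ d ∈ Icc 1 Z, ∀ t : ℝ, ‖G (vE d) Y t‖ ≤ Y / d / L ^ U) (hZ : (Z : ℝ) ≤ x / L ^ U) (hZY : Z ≤ Y)
    (hU : 2 ^ (2 * C) + 2 * C + 7 + 2 * V ≤ U) (hc : 21 * 4 ^ (6 + 2 ^ (2 * C)) ≤ L)
    (a : ℕ → ℕ → ℝ) (ha : ∀ d n, |a d n| ≤ 1) :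
    ∑ c ∈ Icc 1 (x ^ 2), ∑ d ∈ Icc 1 Z, (d.divisors.card : ℝ) ^ C * |T1 α β x a d c| ≤ (x : ℝ) ^ 3 / L ^ V := by
  have hL0 : 0 < L := by linarith
  have hxr : (1 : ℝ) ≤ x := by exact_mod_cast hx
  have hY1 : 1 ≤ Y := by
    have : 1 ≤ x ^ 2 := Nat.one_le_pow _ _ hx
    omega
  have hlogY : 0 ≤ Real.log Y := Real.log_nonneg (by exact_mod_cast hY1)
  have hts : ∀ k : ℕ, Pool.Agent.U325.PB.tsum k Y ≤ (4 * L) ^ (2 ^ k) := fun k =>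
    (tsum_le k Y hY1).trans (pow_le_pow_left₀ (by linarith) hlog _)
  set T' : ℝ := (4 * L) ^ 4 with hT'
  have hT1 : 1 ≤ T' := one_le_pow₀ (by linarith)
  have hts2 : Pool.Agent.U325.PB.tsum 2 Y ≤ T' := by have := hts 2; norm_num at this; exact this
  -- one divisor
  have hone : ∀ d ∈ Icc 1 Z, (d : ℝ) * ∑ c ∈ Icc 1 (x ^ 2), T1 α β x a d c ^ 2 ≤
      x * Y + 2 * T' * (Y : ℝ) ^ 2 / L ^ U * ((d.divisors.card : ℝ) ^ 1 / d) := by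
    intro d hd
    have hd1 := (mem_Icc.1 hd).1
    have hdr : (0 : ℝ) < d := by exact_mod_cast hd1
    have hv : ∀ i, ¬ d ∣ i → vE d i = 0 := fun i hi => by unfold vE; rw [if_neg hi]
    have h1 := second x (x ^ 2) Y α β d hα hY hd1 (a d) (vE d) (ha d) hv (Y / d / L ^ U) (Y / d) (hS d hd) (sum_vE d Y)
    have h2 : Real.sqrt (2 * ((d.divisors.card : ℝ) ^ 2 * ((Y : ℝ) / d) * Pool.Agent.U325.PB.tsum 2 Y) *
        ((Y / d / L ^ U) ^ 2 * (Y / d))) ≤ 2 * T' * d.divisors.card * ((Y : ℝ) / d) ^ 2 / L ^ U := by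
      rw [Real.sqrt_le_left (by positivity)]
      calc 2 * ((d.divisors.card : ℝ) ^ 2 * ((Y : ℝ) / d) * Pool.Agent.U325.PB.tsum 2 Y) * ((Y / d / L ^ U) ^ 2 * (Y / d))
          = (2 * Pool.Agent.U325.PB.tsum 2 Y) * ((d.divisors.card : ℝ) * ((Y : ℝ) / d) ^ 2 / L ^ U) ^ 2 := by
            field_simp
        _ ≤ (4 * T' ^ 2) * ((d.divisors.card : ℝ) * ((Y : ℝ) / d) ^ 2 / L ^ U) ^ 2 := by
            refine mul_le_mul_of_nonneg_right ?_ (sq_nonneg _)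
            nlinarith
        _ = _ := by ring
    calc (d : ℝ) * ∑ c ∈ Icc 1 (x ^ 2), T1 α β x a d c ^ 2
        ≤ d * (x * (Y / d) + 2 * T' * d.divisors.card * ((Y : ℝ) / d) ^ 2 / L ^ U) := by
          refine mul_le_mul_of_nonneg_left ?_ hdr.le
          unfold T1
          linarith
      _ = _ := by field_simp
  -- the sum over the divisors
  have hB2 : ∑ d ∈ Icc 1 Z, (d : ℝ) * ∑ c ∈ Icc 1 (x ^ 2), T1 α β x a d c ^ 2 ≤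
      (21 * 4 ^ 6) * (x : ℝ) ^ 4 * L ^ (2 * C + 6) / L ^ U := by
    refine (sum_le_sum hone).trans ?_
    rw [sum_add_distrib, sum_const, Nat.card_Icc, Nat.add_sub_cancel, nsmul_eq_mul, ← mul_sum]
    have e1 : ∑ d ∈ Icc 1 Z, (d.divisors.card : ℝ) ^ 1 / d ≤ (4 * L) ^ 2 := by
      calc ∑ d ∈ Icc 1 Z, (d.divisors.card : ℝ) ^ 1 / d ≤ Pool.Agent.U325.PB.tsum 1 Y := by
            unfold Pool.Agent.U325.PB.tsum
            exact sum_le_sum_of_subset_of_nonneg (Icc_subset_Icc_right hZY) fun _ _ _ => by positivity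
        _ ≤ _ := by have := hts 1; norm_num at this; exact this
    have e2 : (Z : ℝ) * (x * Y) ≤ 3 * (x : ℝ) ^ 4 * L ^ (2 * C + 6) / L ^ U := by
      have p1 : L ^ C ≤ L ^ (2 * C + 6) := pow_le_pow_right₀ hL (by omega)
      calc (Z : ℝ) * (x * Y) ≤ (x / L ^ U) * (x * (3 * (x : ℝ) ^ 2 * L ^ C)) := by gcongr
        _ = 3 * (x : ℝ) ^ 4 * L ^ C / L ^ U := by field_simp
        _ ≤ _ := by gcongr
    have e3 : 2 * T' * (Y : ℝ) ^ 2 / L ^ U * ∑ d ∈ Icc 1 Z, (d.divisors.card : ℝ) ^ 1 / d ≤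
        (18 * 4 ^ 6) * (x : ℝ) ^ 4 * L ^ (2 * C + 6) / L ^ U := by
      have f1 : (Y : ℝ) ^ 2 ≤ (3 * (x : ℝ) ^ 2 * L ^ C) ^ 2 := pow_le_pow_left₀ (Nat.cast_nonneg _) hY3 2
      have f2 : 2 * T' * (Y : ℝ) ^ 2 / L ^ U ≤ 2 * T' * (3 * (x : ℝ) ^ 2 * L ^ C) ^ 2 / L ^ U :=
        div_le_div_of_nonneg_right (mul_le_mul_of_nonneg_left f1 (by linarith)) (by positivity)
      calc 2 * T' * (Y : ℝ) ^ 2 / L ^ U * ∑ d ∈ Icc 1 Z, (d.divisors.card : ℝ) ^ 1 / d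
          ≤ 2 * T' * (3 * (x : ℝ) ^ 2 * L ^ C) ^ 2 / L ^ U * (4 * L) ^ 2 :=
            mul_le_mul f2 e1 (sum_nonneg fun _ _ => by positivity) (by positivity)
        _ = (18 * 4 ^ 6) * (x : ℝ) ^ 4 * L ^ (2 * C + 6) / L ^ U := by
            rw [hT', mul_pow, mul_pow, mul_pow, pow_add L (2 * C) 6, mul_comm 2 C, pow_mul L C 2]
            ring
    have e4 : 3 * (x : ℝ) ^ 4 * L ^ (2 * C + 6) / L ^ U ≤ (3 * 4 ^ 6) * (x : ℝ) ^ 4 * L ^ (2 * C + 6) / L ^ U := by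
      gcongr
      norm_num
    calc _ ≤ (3 * 4 ^ 6) * (x : ℝ) ^ 4 * L ^ (2 * C + 6) / L ^ U + (18 * 4 ^ 6) * (x : ℝ) ^ 4 * L ^ (2 * C + 6) / L ^ U :=
          add_le_add (e2.trans e4) e3
      _ = _ := by ring
  have hB1 : ∑ z ∈ Icc 1 (x ^ 2) ×ˢ Icc 1 Z, ((z.2.divisors.card : ℝ) ^ C) ^ 2 / z.2 ≤ (x : ℝ) ^ 2 * (4 * L) ^ (2 ^ (2 * C)) := by
    rw [sum_product]
    dsimp only
    rw [sum_const, Nat.card_Icc, Nat.add_sub_cancel, nsmul_eq_mul]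
    push_cast
    refine mul_le_mul_of_nonneg_left ?_ (by positivity)
    calc ∑ d ∈ Icc 1 Z, ((d.divisors.card : ℝ) ^ C) ^ 2 / d = ∑ d ∈ Icc 1 Z, (d.divisors.card : ℝ) ^ (2 * C) / d :=
          sum_congr rfl fun d _ => by rw [← pow_mul, mul_comm C 2]
      _ ≤ Pool.Agent.U325.PB.tsum (2 * C) Y := by
          unfold Pool.Agent.U325.PB.tsum
          exact sum_le_sum_of_subset_of_nonneg (Icc_subset_Icc_right hZY) fun _ _ _ => by positivity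
      _ ≤ _ := hts _
  have hB2' : ∑ z ∈ Icc 1 (x ^ 2) ×ˢ Icc 1 Z, (z.2 : ℝ) * T1 α β x a z.2 z.1 ^ 2 ≤
      (21 * 4 ^ 6) * (x : ℝ) ^ 4 * L ^ (2 * C + 6) / L ^ U := by
    rw [sum_product_right]
    refine le_trans (le_of_eq ?_) hB2
    refine sum_congr rfl fun d _ => ?_
    rw [mul_sum]
  rw [← sum_product' (Icc 1 (x ^ 2)) (Icc 1 Z) (fun c d => (d.divisors.card : ℝ) ^ C * |T1 α β x a d c|)]
  have hsq : (∑ z ∈ Icc 1 (x ^ 2) ×ˢ Icc 1 Z, (z.2.divisors.card : ℝ) ^ C * |T1 α β x a z.2 z.1|) ^ 2 ≤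
      ((x : ℝ) ^ 3 / L ^ V) ^ 2 := by
    have e1 := sum_sq_le_sum_mul_sum_of_sq_le_mul (Icc 1 (x ^ 2) ×ˢ Icc 1 Z)
      (r := fun z => (z.2.divisors.card : ℝ) ^ C * |T1 α β x a z.2 z.1|)
      (f := fun z => ((z.2.divisors.card : ℝ) ^ C) ^ 2 / z.2)
      (g := fun z => (z.2 : ℝ) * T1 α β x a z.2 z.1 ^ 2) (fun z _ => by positivity)
      (fun z _ => by positivity) (fun z hz => by
        rw [mem_product, mem_Icc, mem_Icc] at hz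
        have a1 : (z.2 : ℝ) ≠ 0 := by have := hz.2.1; positivity
        rw [mul_pow, sq_abs]
        apply le_of_eq
        field_simp)
    refine e1.trans ?_
    calc _ ≤ ((x : ℝ) ^ 2 * (4 * L) ^ (2 ^ (2 * C))) * ((21 * 4 ^ 6) * (x : ℝ) ^ 4 * L ^ (2 * C + 6) / L ^ U) :=
          mul_le_mul hB1 hB2' (sum_nonneg fun _ _ => by positivity) (by positivity)
      _ = (x : ℝ) ^ 6 * ((21 * 4 ^ (6 + 2 ^ (2 * C))) * L ^ (2 ^ (2 * C) + (2 * C + 6))) / L ^ U := by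
          rw [mul_pow, pow_add 4 6, pow_add L (2 ^ (2 * C))]
          ring
      _ ≤ (x : ℝ) ^ 6 / L ^ (2 * V) := by
          rw [div_le_div_iff₀ (by positivity) (by positivity), mul_assoc]
          refine mul_le_mul_of_nonneg_left ?_ (by positivity)
          calc (21 * 4 ^ (6 + 2 ^ (2 * C))) * L ^ (2 ^ (2 * C) + (2 * C + 6)) * L ^ (2 * V)
              ≤ L * L ^ (2 ^ (2 * C) + (2 * C + 6)) * L ^ (2 * V) := by gcongr
            _ = L ^ (2 ^ (2 * C) + 2 * C + 7 + 2 * V) := by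
                rw [← pow_succ', ← pow_add]
                congr 1
            _ ≤ L ^ U := pow_le_pow_right₀ hL hU
      _ = _ := by rw [div_pow, ← pow_mul, ← pow_mul, mul_comm V 2]
  exact (pow_le_pow_iff_left₀ (sum_nonneg fun _ _ => by positivity) (by positivity) (by norm_num)).1 hsq

/-- **The mean for a fixed sieve function.** -/
theorem mean2 (x Y α β Z C U V : ℕ) (L : ℝ) (hL : 1 ≤ L) (hx : 1 ≤ x) (hα : 1 ≤ α)
    (hY : α * x ^ 2 + β * x + x ^ 2 ≤ Y) (hY3 : (Y : ℝ) ≤ 3 * (x : ℝ) ^ 2 * L ^ C) (hlog : 1 + Real.log Y ≤ 4 * L)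
    (hS : ∀ d ∈ Icc 1 Z, ∀ t : ℝ, ‖G (vE d) Y t‖ ≤ Y / d / L ^ U) (hxU : L ^ U ≤ x) (hZY : Z ≤ Y)
    (hU : 2 ^ (2 * C + 2) + 2 ^ C + 5 * C + 5 + 2 * V ≤ U) (hc : 21 * 4 ^ (4 + 2 ^ C + 2 ^ (2 * C + 2)) ≤ L)
    (b σ : ℕ → ℝ) (hb : ∀ n, |b n| ≤ 1) (hσ : ∀ e, Z < e → σ e = 0)
    (hσ2 : ∀ e, |σ e| ≤ L ^ C * (e.divisors.card : ℝ) ^ C) :
    ∑ c ∈ Icc 1 (x ^ 2), |T2 α β x b σ c| ≤ (x : ℝ) ^ 3 / L ^ V := by
  have hL0 : 0 < L := by linarith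
  have hxr : (1 : ℝ) ≤ x := by exact_mod_cast hx
  have hx0 : (0 : ℝ) < x := by linarith
  have hY1 : 1 ≤ Y := by
    have : 1 ≤ x ^ 2 := Nat.one_le_pow _ _ hx
    omega
  have hlogY : 0 ≤ Real.log Y := Real.log_nonneg (by exact_mod_cast hY1)
  have hts : ∀ k : ℕ, Pool.Agent.U325.PB.tsum k Y ≤ (4 * L) ^ (2 ^ k) := fun k =>
    (tsum_le k Y hY1).trans (pow_le_pow_left₀ (by linarith) hlog _)
  set T' : ℝ := (4 * L) ^ 4 with hT'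
  have hT1 : 1 ≤ T' := one_le_pow₀ (by linarith)
  have hts2 : Pool.Agent.U325.PB.tsum 2 Y ≤ T' := by have := hts 2; norm_num at this; exact this
  set m₀ : ℝ := (L ^ C) ^ 2 * (4 * L) ^ (2 ^ (2 * C + 2)) with hm₀
  set s₀ : ℝ := L ^ C * (4 * L) ^ (2 ^ C) / L ^ U with hs₀
  have hm1 : 1 ≤ m₀ := one_le_mul_of_one_le_of_one_le (one_le_pow₀ (one_le_pow₀ hL)) (one_le_pow₀ (by linarith))
  have hs0 : 0 ≤ s₀ := by positivity
  have hsup : ∀ t : ℝ, ‖G (ww σ) Y t‖ ≤ Y * s₀ := by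
    intro t
    refine (ww_sup σ C Z Y (L ^ C) (L ^ U) (by positivity) (by positivity) hZY hσ hσ2 hS t).trans ?_
    refine mul_le_mul_of_nonneg_left ?_ (Nat.cast_nonneg _)
    rw [hs₀]
    have := hts C
    gcongr
  have hsq : ∑ n ∈ Icc 1 Y, ww σ n ^ 2 ≤ Y * m₀ := by
    refine (ww_sq σ C Y (L ^ C) (by positivity) hσ2).trans ?_
    rw [hm₀]
    have := hts (2 * C + 2)
    calc (L ^ C) ^ 2 * (Y * Pool.Agent.U325.PB.tsum (2 * C + 2) Y) ≤ (L ^ C) ^ 2 * (Y * (4 * L) ^ (2 ^ (2 * C + 2))) := by gcongr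
      _ = _ := by ring
  have h1 := second x (x ^ 2) Y α β 1 hα hY le_rfl b (ww σ) hb (fun i hi => absurd (one_dvd i) hi) (Y * s₀) (Y * m₀) hsup hsq
  have h2 : Real.sqrt (2 * (((1 : ℕ).divisors.card : ℝ) ^ 2 * ((Y : ℝ) / (1 : ℕ)) * Pool.Agent.U325.PB.tsum 2 Y) *
      ((Y * s₀) ^ 2 * (Y * m₀))) ≤ 2 * T' * m₀ * s₀ * (Y : ℝ) ^ 2 := by
    rw [Real.sqrt_le_left (by positivity)]
    have e0 : ((1 : ℕ).divisors.card : ℝ) = 1 := by simp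
    rw [e0]
    calc 2 * ((1 : ℝ) ^ 2 * ((Y : ℝ) / (1 : ℕ)) * Pool.Agent.U325.PB.tsum 2 Y) * ((Y * s₀) ^ 2 * (Y * m₀))
        = (2 * Pool.Agent.U325.PB.tsum 2 Y * m₀) * (s₀ * (Y : ℝ) ^ 2) ^ 2 := by push_cast; ring
      _ ≤ (4 * T' ^ 2 * m₀ ^ 2) * (s₀ * (Y : ℝ) ^ 2) ^ 2 := by
          refine mul_le_mul_of_nonneg_right ?_ (sq_nonneg _)
          have e1 : 2 * Pool.Agent.U325.PB.tsum 2 Y ≤ 4 * T' ^ 2 := by nlinarith
          have e2 : m₀ ≤ m₀ ^ 2 := by nlinarith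
          exact mul_le_mul e1 e2 (by linarith) (by positivity)
      _ = _ := by ring
  have h3 : ∑ c ∈ Icc 1 (x ^ 2), T2 α β x b σ c ^ 2 ≤ (21 * 4 ^ (4 + 2 ^ C + 2 ^ (2 * C + 2))) * (x : ℝ) ^ 4 *
      L ^ (2 ^ (2 * C + 2) + 2 ^ C + 5 * C + 4) / L ^ U := by
    have e1 : ∑ c ∈ Icc 1 (x ^ 2), T2 α β x b σ c ^ 2 ≤ x * (Y * m₀) + 2 * T' * m₀ * s₀ * (Y : ℝ) ^ 2 := by
      unfold T2
      linarith
    refine e1.trans ?_
    have q1 : 0 < 2 ^ C := by positivity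
    have q2 : 0 < 2 ^ (2 * C + 2) := by positivity
    have e2 : (x : ℝ) * (Y * m₀) ≤ (3 * 4 ^ (4 + 2 ^ C + 2 ^ (2 * C + 2))) * (x : ℝ) ^ 4 *
        L ^ (2 ^ (2 * C + 2) + 2 ^ C + 5 * C + 4) / L ^ U := by
      have p1 : L ^ (2 ^ (2 * C + 2) + 3 * C) ≤ L ^ (2 ^ (2 * C + 2) + 2 ^ C + 5 * C + 4) := pow_le_pow_right₀ hL (by omega)
      rw [le_div_iff₀ (by positivity)]
      calc (x : ℝ) * (Y * m₀) * L ^ U ≤ (x : ℝ) * ((3 * (x : ℝ) ^ 2 * L ^ C) * m₀) * x := by gcongr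
        _ = (3 * 4 ^ (2 ^ (2 * C + 2))) * (x : ℝ) ^ 4 * L ^ (2 ^ (2 * C + 2) + 3 * C) := by
            rw [hm₀, mul_pow, pow_add L (2 ^ (2 * C + 2)) (3 * C), ← pow_mul, mul_comm 3 C, pow_mul L C 3, pow_mul L C 2]
            ring
        _ ≤ (3 * 4 ^ (4 + 2 ^ C + 2 ^ (2 * C + 2))) * (x : ℝ) ^ 4 * L ^ (2 ^ (2 * C + 2) + 2 ^ C + 5 * C + 4) := by
            have : (4 : ℝ) ^ (2 ^ (2 * C + 2)) ≤ 4 ^ (4 + 2 ^ C + 2 ^ (2 * C + 2)) := pow_le_pow_right₀ (by norm_num) (by omega)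
            gcongr
    have e3 : 2 * T' * m₀ * s₀ * (Y : ℝ) ^ 2 ≤ (18 * 4 ^ (4 + 2 ^ C + 2 ^ (2 * C + 2))) * (x : ℝ) ^ 4 *
        L ^ (2 ^ (2 * C + 2) + 2 ^ C + 5 * C + 4) / L ^ U := by
      have f1 : (Y : ℝ) ^ 2 ≤ (3 * (x : ℝ) ^ 2 * L ^ C) ^ 2 := pow_le_pow_left₀ (Nat.cast_nonneg _) hY3 2
      calc 2 * T' * m₀ * s₀ * (Y : ℝ) ^ 2 ≤ 2 * T' * m₀ * s₀ * (3 * (x : ℝ) ^ 2 * L ^ C) ^ 2 :=
            mul_le_mul_of_nonneg_left f1 (by positivity)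
        _ = _ := by
            rw [hT', hm₀, hs₀, mul_pow, mul_pow, mul_pow, mul_pow, mul_pow, ← pow_mul, pow_add 4, pow_add 4, pow_add L,
              pow_add L, pow_add L, mul_comm 5 C, pow_mul L C 5, pow_mul L C 2]
            ring
    calc _ ≤ _ := add_le_add e2 e3
      _ = _ := by ring
  have hcs : (∑ c ∈ Icc 1 (x ^ 2), |T2 α β x b σ c|) ^ 2 ≤ ((x : ℝ) ^ 3 / L ^ V) ^ 2 := by
    have e1 : (∑ c ∈ Icc 1 (x ^ 2), |T2 α β x b σ c|) ^ 2 ≤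
        ((Icc 1 (x ^ 2)).card : ℝ) * ∑ c ∈ Icc 1 (x ^ 2), |T2 α β x b σ c| ^ 2 := sq_sum_le_card_mul_sum_sq
    rw [Nat.card_Icc, Nat.add_sub_cancel] at e1
    simp only [sq_abs] at e1
    refine e1.trans ?_
    push_cast
    calc (x : ℝ) ^ 2 * ∑ c ∈ Icc 1 (x ^ 2), T2 α β x b σ c ^ 2
        ≤ (x : ℝ) ^ 2 * ((21 * 4 ^ (4 + 2 ^ C + 2 ^ (2 * C + 2))) * (x : ℝ) ^ 4 *
            L ^ (2 ^ (2 * C + 2) + 2 ^ C + 5 * C + 4) / L ^ U) := mul_le_mul_of_nonneg_left h3 (by positivity)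
      _ = (x : ℝ) ^ 6 * ((21 * 4 ^ (4 + 2 ^ C + 2 ^ (2 * C + 2))) * L ^ (2 ^ (2 * C + 2) + 2 ^ C + 5 * C + 4)) / L ^ U := by ring
      _ ≤ (x : ℝ) ^ 6 / L ^ (2 * V) := by
          rw [div_le_div_iff₀ (by positivity) (by positivity), mul_assoc]
          refine mul_le_mul_of_nonneg_left ?_ (by positivity)
          calc (21 * 4 ^ (4 + 2 ^ C + 2 ^ (2 * C + 2))) * L ^ (2 ^ (2 * C + 2) + 2 ^ C + 5 * C + 4) * L ^ (2 * V)
              ≤ L * L ^ (2 ^ (2 * C + 2) + 2 ^ C + 5 * C + 4) * L ^ (2 * V) := by gcongr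
            _ = L ^ (2 ^ (2 * C + 2) + 2 ^ C + 5 * C + 5 + 2 * V) := by
                rw [← pow_succ', ← pow_add]
            _ ≤ L ^ U := pow_le_pow_right₀ hL hU
      _ = _ := by rw [div_pow, ← pow_mul, ← pow_mul, mul_comm V 2]
  exact (pow_le_pow_iff_left₀ (sum_nonneg fun _ _ => abs_nonneg _) (by positivity) (by norm_num)).1 hcs

end Pool.Agent.U325.PQ
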