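import Pool.Agent.U325.PB.Fin2

/-!
The mean square over `c ≤ X` of `∑_{n ≤ x} u(n) v(α n² + β n + c)`, where `v` is supported on the multiples
of `d`.
-/

set_option autoImplicit false

namespace Pool.Agent.U325.PQ

open Finset
open Pool.Agent.U325.PB

/-- the mean square over the shifts in terms of the autocorrelations -/
lemma shift_quad (X Y x : ℕ) (p : ℕ → ℕ) (hp : ∀ n ∈ Icc 1 x, p n + X ≤ Y) (u v : ℕ → ℝ) :
    ∑ c ∈ Icc 1 X, (∑ n ∈ Icc 1 x, u n * v (p n + c)) ^ 2 ≤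
      ∑ i ∈ Icc 1 x ×ˢ Icc 1 x, u i.1 * u i.2 * cor v Y ((p i.1 : ℤ) - (p i.2 : ℤ)) := by
  set I := Icc 1 x ×ˢ Icc 1 Y with hI
  have h2 : ∑ g ∈ range (2 * Y + 1), (∑ i ∈ I.filter (fun i => i.2 + Y = g + p i.1), u i.1 * v i.2) ^ 2 =
      ∑ i ∈ I, ∑ j ∈ I, if i.2 + p j.1 = j.2 + p i.1 then u i.1 * v i.2 * (u j.1 * v j.2) else 0 := by
    have e1 : ∀ g ∈ range (2 * Y + 1), (∑ i ∈ I.filter (fun i => i.2 + Y = g + p i.1), u i.1 * v i.2) ^ 2 =
        ∑ i ∈ I, ∑ j ∈ I, if i.2 + Y = g + p i.1 ∧ j.2 + Y = g + p j.1 then u i.1 * v i.2 * (u j.1 * v j.2) else 0 := by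
      intro g _
      rw [sq, sum_filter, sum_mul_sum]
      refine sum_congr rfl fun i _ => sum_congr rfl fun j _ => ?_
      by_cases a1 : i.2 + Y = g + p i.1 <;> by_cases a2 : j.2 + Y = g + p j.1 <;> simp [a1, a2]
    rw [sum_congr rfl e1, sum_comm]
    refine sum_congr rfl fun i hi => ?_
    rw [sum_comm]
    refine sum_congr rfl fun j hj => ?_
    rw [hI, mem_product] at hi hj
    have hpi := hp i.1 hi.1
    have hpj := hp j.1 hj.1
    rw [mem_Icc, mem_Icc] at hi hj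
    by_cases a1 : i.2 + p j.1 = j.2 + p i.1
    · rw [if_pos a1, sum_eq_single (i.2 + Y - p i.1)]
      · rw [if_pos (by omega)]
      · intro b _ hb
        rw [if_neg (fun h => hb (by omega))]
      · intro h
        exact absurd (mem_range.2 (by omega)) h
    · rw [if_neg a1]
      refine sum_eq_zero fun g _ => ?_
      rw [if_neg (fun h => a1 (by omega))]
  have h3 : (∑ i ∈ I, ∑ j ∈ I, if i.2 + p j.1 = j.2 + p i.1 then u i.1 * v i.2 * (u j.1 * v j.2) else 0) =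
      ∑ i ∈ Icc 1 x ×ˢ Icc 1 x, u i.1 * u i.2 * cor v Y ((p i.1 : ℤ) - (p i.2 : ℤ)) := by
    rw [hI, sum_product, sum_product]
    refine sum_congr rfl fun n _ => ?_
    have e1 : ∀ m ∈ Icc 1 Y, (∑ j ∈ Icc 1 x ×ˢ Icc 1 Y, if m + p j.1 = j.2 + p n then u n * v m * (u j.1 * v j.2) else 0) =
        ∑ n' ∈ Icc 1 x, ∑ m' ∈ Icc 1 Y, u n * u n' * (if (m : ℤ) - (m' : ℤ) = (p n : ℤ) - (p n' : ℤ) then v m * v m' else 0) := by
      intro m _
      rw [sum_product]
      refine sum_congr rfl fun n' _ => sum_congr rfl fun m' _ => ?_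
      by_cases a : m + p n' = m' + p n
      · rw [if_pos a, if_pos (by omega)]; ring
      · rw [if_neg a, if_neg (by omega), mul_zero]
    rw [sum_congr rfl e1, sum_comm]
    refine sum_congr rfl fun n' _ => ?_
    unfold cor
    simp only [mul_sum]
  have h4 : ∀ c ∈ Icc 1 X, (∑ n ∈ Icc 1 x, u n * v (p n + c)) =
      ∑ i ∈ I.filter (fun i => i.2 + Y = (c + Y) + p i.1), u i.1 * v i.2 := by
    intro c hc
    rw [mem_Icc] at hc
    refine sum_bij' (fun n _ => (n, p n + c)) (fun i _ => i.1) ?_ ?_ ?_ ?_ ?_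
    · intro n hn
      have := hp n hn
      rw [mem_filter, hI, mem_product]
      dsimp only
      exact ⟨⟨hn, mem_Icc.2 ⟨by omega, by omega⟩⟩, by omega⟩
    · intro i hi
      rw [mem_filter, hI, mem_product] at hi
      exact hi.1.1
    · intro n _; rfl
    · intro i hi
      rw [mem_filter, hI, mem_product] at hi
      ext
      · rfl
      · dsimp only; omega
    · intro n _; rfl
  rw [← h3, ← h2, sum_congr rfl fun c hc => by rw [h4 c hc]]
  have h5 : ∑ c ∈ Icc 1 X, (∑ i ∈ I.filter (fun i => i.2 + Y = (c + Y) + p i.1), u i.1 * v i.2) ^ 2 =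
      ∑ g ∈ (Icc 1 X).image (fun c => c + Y), (∑ i ∈ I.filter (fun i => i.2 + Y = g + p i.1), u i.1 * v i.2) ^ 2 := by
    rw [sum_image]
    intro a _ b _ hab
    exact Nat.add_right_cancel hab
  rw [h5]
  rcases Nat.eq_zero_or_pos x with hx | hx
  · have : I = ∅ := by rw [hI, hx]; simp
    rw [this]
    simp
  have hXY : X ≤ Y := by have := hp 1 (mem_Icc.2 ⟨le_rfl, hx⟩); omega
  refine sum_le_sum_of_subset_of_nonneg ?_ fun _ _ _ => sq_nonneg _
  intro g hg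
  rw [mem_image] at hg
  obtain ⟨c, hc, rfl⟩ := hg
  rw [mem_Icc] at hc
  rw [mem_range]
  omega

/-- the polynomial without its constant term -/
def P (α β n : ℕ) : ℕ := α * n ^ 2 + β * n

lemma P_sub (α β m n : ℕ) : ((P α β m : ℕ) : ℤ) - (P α β n : ℕ) = ((m : ℤ) - n) * (α * (m + n) + β) := by
  unfold P
  push_cast
  ring

/-- the pairs with a given difference of the values -/
lemma rep_le (α β x : ℕ) (hα : 1 ≤ α) (h : ℤ) (hh : h ≠ 0) :
    ((Icc 1 x ×ˢ Icc 1 x).filter (fun i => ((P α β i.1 : ℕ) : ℤ) - (P α β i.2 : ℕ) = h)).card ≤ h.natAbs.divisors.card := by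
  refine card_le_card_of_injOn (fun i => ((i.1 : ℤ) - (i.2 : ℤ)).natAbs) ?_ ?_
  · intro i hi
    rw [mem_coe, mem_filter, P_sub] at hi
    rw [mem_coe, Nat.mem_divisors]
    refine ⟨?_, Int.natAbs_ne_zero.2 hh⟩
    rw [Int.natAbs_dvd_natAbs, ← hi.2]
    exact Dvd.intro _ rfl
  · intro i hi j hj hij
    rw [mem_coe, mem_filter, P_sub, mem_product, mem_Icc, mem_Icc] at hi hj
    dsimp only at hij
    have hαz : (1 : ℤ) ≤ α := by exact_mod_cast hα
    have ti : (0 : ℤ) < α * (i.1 + i.2) + β := by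
      have : (0 : ℤ) < (i.1 : ℤ) + i.2 := by omega
      have : (0 : ℤ) < α * ((i.1 : ℤ) + i.2) := by positivity
      omega
    have tj : (0 : ℤ) < α * (j.1 + j.2) + β := by
      have : (0 : ℤ) < (j.1 : ℤ) + j.2 := by omega
      have : (0 : ℤ) < α * ((j.1 : ℤ) + j.2) := by positivity
      omega
    have hs : (i.1 : ℤ) - i.2 = (j.1 : ℤ) - j.2 := by
      rcases Int.natAbs_eq_natAbs_iff.1 hij with h1 | h1
      · exact h1
      · exfalso
        have h2 : ((j.1 : ℤ) - j.2) * ((α * (i.1 + i.2) + β) + (α * (j.1 + j.2) + β)) = 0 := by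
          have e1 := hi.2
          have e2 := hj.2
          rw [h1] at e1
          linear_combination e2 - e1
        rcases mul_eq_zero.1 h2 with h3 | h3
        · apply hh
          rw [← hj.2, h3, zero_mul]
        · omega
    have hs0 : (i.1 : ℤ) - i.2 ≠ 0 := by
      intro h0
      apply hh
      rw [← hi.2, h0, zero_mul]
    have ht : (α : ℤ) * (i.1 + i.2) + β = α * (j.1 + j.2) + β := by
      have e1 : ((i.1 : ℤ) - i.2) * (α * (i.1 + i.2) + β) = ((i.1 : ℤ) - i.2) * (α * (j.1 + j.2) + β) := by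
        rw [hi.2, hs, hj.2]
      exact mul_left_cancel₀ hs0 e1
    have ht2 : (i.1 : ℤ) + i.2 = (j.1 : ℤ) + j.2 := by
      have e1 : (α : ℤ) * (i.1 + i.2) = α * (j.1 + j.2) := by linarith
      exact mul_left_cancel₀ (by omega) e1
    have h1 : i.1 = j.1 := by omega
    have h2 : i.2 = j.2 := by omega
    exact Prod.ext h1 h2

lemma rep_zero (α β x : ℕ) (hα : 1 ≤ α) :
    ((Icc 1 x ×ˢ Icc 1 x).filter (fun i => ((P α β i.1 : ℕ) : ℤ) - (P α β i.2 : ℕ) = 0)).card ≤ x := by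
  have h1 : ((Icc 1 x ×ˢ Icc 1 x).filter (fun i => ((P α β i.1 : ℕ) : ℤ) - (P α β i.2 : ℕ) = 0)).card ≤ (Icc 1 x).card := by
    refine card_le_card_of_injOn (fun i => i.1) ?_ ?_
    · intro i hi
      rw [mem_coe, mem_filter, mem_product] at hi
      exact hi.1.1
    · have key : ∀ i ∈ (Icc 1 x ×ˢ Icc 1 x).filter (fun i => ((P α β i.1 : ℕ) : ℤ) - (P α β i.2 : ℕ) = 0), i.1 = i.2 := by
        intro i hi
        rw [mem_filter, P_sub, mem_product, mem_Icc, mem_Icc] at hi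
        have hαz : (1 : ℤ) ≤ α := by exact_mod_cast hα
        have ti : (0 : ℤ) < α * (i.1 + i.2) + β := by
          have : (0 : ℤ) < (i.1 : ℤ) + i.2 := by omega
          have : (0 : ℤ) < α * ((i.1 : ℤ) + i.2) := by positivity
          omega
        rcases mul_eq_zero.1 hi.2 with h | h
        · omega
        · omega
      intro i hi j hj hij
      have e1 := key i hi
      have e2 := key j hj
      dsimp only at hij
      exact Prod.ext hij (by rw [← e1, ← e2, hij])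
  rwa [Nat.card_Icc, Nat.add_sub_cancel] at h1

/-! ### divisor sums over multiples -/

lemma tau_sum (k Y : ℕ) : ∑ m ∈ Icc 1 Y, (m.divisors.card : ℝ) ^ k ≤ Y * Pool.Agent.U325.PB.tsum k Y := by
  unfold Pool.Agent.U325.PB.tsum
  rw [mul_sum]
  refine sum_le_sum fun m hm => ?_
  rw [mem_Icc] at hm
  have hmr : (0 : ℝ) < m := by exact_mod_cast hm.1
  have h1 : (1 : ℝ) ≤ (Y : ℝ) / m := by rw [le_div_iff₀ hmr, one_mul]; exact_mod_cast hm.2
  calc (m.divisors.card : ℝ) ^ k = 1 * (m.divisors.card : ℝ) ^ k := by ring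
    _ ≤ (Y : ℝ) / m * (m.divisors.card : ℝ) ^ k := mul_le_mul_of_nonneg_right h1 (by positivity)
    _ = _ := by ring

lemma tau_mult (Y d : ℕ) (hd : 1 ≤ d) : ∑ m ∈ (Icc 1 Y).filter (fun m => d ∣ m), (m.divisors.card : ℝ) ^ 2 ≤
    (d.divisors.card : ℝ) ^ 2 * ((Y : ℝ) / d) * Pool.Agent.U325.PB.tsum 2 Y := by
  have h1 : ∑ m ∈ (Icc 1 Y).filter (fun m => d ∣ m), (m.divisors.card : ℝ) ^ 2 =
      ∑ k ∈ Icc 1 (Y / d), ((d * k).divisors.card : ℝ) ^ 2 := by
    symm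
    refine sum_bij' (fun k _ => d * k) (fun n _ => n / d) ?_ ?_ ?_ ?_ ?_
    · intro m hm
      rw [mem_Icc] at hm
      rw [mem_filter, mem_Icc]
      refine ⟨⟨Nat.one_le_iff_ne_zero.mpr (Nat.mul_ne_zero (by omega) (by omega)), ?_⟩, Dvd.intro _ rfl⟩
      calc d * m ≤ d * (Y / d) := Nat.mul_le_mul_left _ hm.2
        _ ≤ Y := Nat.mul_div_le _ _
    · intro n hn
      rw [mem_filter, mem_Icc] at hn
      obtain ⟨⟨h1, h2⟩, c, hc⟩ := hn
      rw [mem_Icc]
      refine ⟨?_, Nat.div_le_div_right h2⟩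
      rw [hc, Nat.mul_div_cancel_left _ (by omega)]
      rcases Nat.eq_zero_or_pos c with h | h
      · rw [h, mul_zero] at hc; omega
      · exact h
    · intro m _
      exact Nat.mul_div_cancel_left _ (by omega)
    · intro n hn
      rw [mem_filter] at hn
      exact Nat.mul_div_cancel' hn.2
    · intro m _
      rfl
  rw [h1]
  have h2 : ∀ k ∈ Icc 1 (Y / d), ((d * k).divisors.card : ℝ) ^ 2 ≤ (d.divisors.card : ℝ) ^ 2 * (k.divisors.card : ℝ) ^ 2 := by
    intro k _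
    rw [← mul_pow]
    refine pow_le_pow_left₀ (Nat.cast_nonneg _) ?_ 2
    exact_mod_cast card_divisors_mul_le d k
  refine (sum_le_sum h2).trans ?_
  rw [← mul_sum, mul_assoc]
  refine mul_le_mul_of_nonneg_left ?_ (by positivity)
  refine (tau_sum 2 (Y / d)).trans ?_
  refine mul_le_mul Nat.cast_div_le ?_ (tsum_nonneg _ _) (by positivity)
  unfold Pool.Agent.U325.PB.tsum
  exact sum_le_sum_of_subset_of_nonneg (Icc_subset_Icc_right (Nat.div_le_self _ _)) fun _ _ _ => by positivity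

lemma tau_mul_set (Y d : ℕ) (hd : 1 ≤ d) : ∑ h ∈ (mul Y d).erase 0, (h.natAbs.divisors.card : ℝ) ^ 2 ≤
    2 * ((d.divisors.card : ℝ) ^ 2 * ((Y : ℝ) / d) * Pool.Agent.U325.PB.tsum 2 Y) := by
  have hmem : ∀ h ∈ (mul Y d).erase 0, h.natAbs ∈ (Icc 1 Y).filter (fun m => d ∣ m) := by
    intro h hh
    rw [mem_erase] at hh
    unfold mul at hh
    rw [mem_filter, mem_Icc] at hh
    rw [mem_filter, mem_Icc]
    refine ⟨⟨by omega, by omega⟩, ?_⟩
    exact Int.natCast_dvd.1 hh.2.2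
  have hpos : ∑ h ∈ ((mul Y d).erase 0).filter (fun h => 0 < h), (h.natAbs.divisors.card : ℝ) ^ 2 ≤
      ∑ m ∈ (Icc 1 Y).filter (fun m => d ∣ m), (m.divisors.card : ℝ) ^ 2 := by
    rw [← sum_image (f := fun m : ℕ => (m.divisors.card : ℝ) ^ 2) (g := Int.natAbs)]
    · refine sum_le_sum_of_subset_of_nonneg ?_ fun _ _ _ => by positivity
      intro m hm
      rw [mem_image] at hm
      obtain ⟨h, hh, rfl⟩ := hm
      exact hmem h (mem_filter.1 hh).1
    · intro a ha b hb hab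
      rw [mem_coe, mem_filter] at ha hb
      omega
  have hneg : ∑ h ∈ ((mul Y d).erase 0).filter (fun h => ¬ 0 < h), (h.natAbs.divisors.card : ℝ) ^ 2 ≤
      ∑ m ∈ (Icc 1 Y).filter (fun m => d ∣ m), (m.divisors.card : ℝ) ^ 2 := by
    rw [← sum_image (f := fun m : ℕ => (m.divisors.card : ℝ) ^ 2) (g := Int.natAbs)]
    · refine sum_le_sum_of_subset_of_nonneg ?_ fun _ _ _ => by positivity
      intro m hm
      rw [mem_image] at hm
      obtain ⟨h, hh, rfl⟩ := hm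
      exact hmem h (mem_filter.1 hh).1
    · intro a ha b hb hab
      rw [mem_coe, mem_filter] at ha hb
      omega
  rw [← sum_filter_add_sum_filter_not _ (fun h : ℤ => 0 < h)]
  have := tau_mult Y d hd
  linarith

lemma cor_supp (v : ℕ → ℝ) (Y d : ℕ) (hv : ∀ i, ¬ d ∣ i → v i = 0) (h : ℤ) (hh : ¬ (d : ℤ) ∣ h) : cor v Y h = 0 := by
  unfold cor
  refine sum_eq_zero fun i _ => sum_eq_zero fun j _ => ?_
  by_cases a : (i : ℤ) - (j : ℤ) = h
  · rw [if_pos a]
    by_cases b1 : d ∣ i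
    · by_cases b2 : d ∣ j
      · exfalso
        apply hh
        rw [← a]
        exact dvd_sub (Int.natCast_dvd_natCast.2 b1) (Int.natCast_dvd_natCast.2 b2)
      · rw [hv j b2, mul_zero]
    · rw [hv i b1, zero_mul]
  · rw [if_neg a]

lemma cor_zero (v : ℕ → ℝ) (Y : ℕ) : cor v Y 0 = ∑ n ∈ Icc 1 Y, v n ^ 2 := by
  unfold cor
  refine sum_congr rfl fun i hi => ?_
  rw [sum_eq_single i]
  · rw [if_pos (by omega), sq]
  · intro b _ hb
    rw [if_neg (by omega)]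
  · intro h; exact absurd hi h

lemma SC_sup (v : ℕ → ℝ) (Y q : ℕ) (hq : 1 ≤ q) (S : ℝ) (hS : ∀ β : ℝ, ‖G v Y β‖ ≤ S) :
    SC v Y q ≤ S ^ 2 * ∑ n ∈ Icc 1 Y, v n ^ 2 := by
  have hM : (0 : ℝ) < ((2 * Y + 1 : ℕ) : ℝ) := by positivity
  have hqr : (0 : ℝ) < q := by exact_mod_cast hq
  have hW : ∀ β : ℝ, W v Y q β ≤ S ^ 2 := by
    intro β
    unfold W
    rw [div_le_iff₀ hqr]
    calc ∑ b ∈ range q, ‖G v Y (β + (b : ℝ) / q)‖ ^ 2 ≤ ∑ _b ∈ range q, S ^ 2 :=
          sum_le_sum fun b _ => pow_le_pow_left₀ (norm_nonneg _) (hS _) 2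
      _ = S ^ 2 * q := by rw [sum_const, card_range, nsmul_eq_mul]; ring
  refine le_of_mul_le_mul_left ?_ hM
  rw [SC_eq v Y q hq]
  calc ∑ t ∈ range (2 * Y + 1), ‖G v Y ((t : ℝ) / ((2 * Y + 1 : ℕ) : ℝ))‖ ^ 2 * W v Y q ((t : ℝ) / ((2 * Y + 1 : ℕ) : ℝ))
      ≤ ∑ t ∈ range (2 * Y + 1), ‖G v Y ((t : ℝ) / ((2 * Y + 1 : ℕ) : ℝ))‖ ^ 2 * S ^ 2 :=
        sum_le_sum fun t _ => mul_le_mul_of_nonneg_left (hW _) (by positivity)
    _ = _ := by rw [← sum_mul, pars]; ring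

/-- **The mean square over the constant terms.** -/
theorem second (x X Y α β d : ℕ) (hα : 1 ≤ α) (hY : α * x ^ 2 + β * x + X ≤ Y) (hd : 1 ≤ d) (u v : ℕ → ℝ)
    (hu : ∀ n, |u n| ≤ 1) (hv : ∀ i, ¬ d ∣ i → v i = 0) (S M : ℝ) (hS : ∀ t : ℝ, ‖G v Y t‖ ≤ S)
    (hM : ∑ n ∈ Icc 1 Y, v n ^ 2 ≤ M) :
    ∑ c ∈ Icc 1 X, (∑ n ∈ Icc 1 x, u n * v (P α β n + c)) ^ 2 ≤
      x * M + Real.sqrt (2 * ((d.divisors.card : ℝ) ^ 2 * ((Y : ℝ) / d) * Pool.Agent.U325.PB.tsum 2 Y) * (S ^ 2 * M)) := by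
  have hPle : ∀ n ∈ Icc 1 x, P α β n + X ≤ Y := by
    intro n hn
    rw [mem_Icc] at hn
    refine le_trans ?_ hY
    unfold P
    have h1 : α * n ^ 2 ≤ α * x ^ 2 := Nat.mul_le_mul_left _ (Nat.pow_le_pow_left hn.2 2)
    have h2 : β * n ≤ β * x := Nat.mul_le_mul_left _ hn.2
    omega
  refine (shift_quad X Y x (P α β) hPle u v).trans ?_
  have hM0 : 0 ≤ M := (sum_nonneg fun _ _ => sq_nonneg _).trans hM
  -- absolute values
  have h1 : ∑ i ∈ Icc 1 x ×ˢ Icc 1 x, u i.1 * u i.2 * cor v Y ((P α β i.1 : ℤ) - (P α β i.2 : ℤ)) ≤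
      ∑ i ∈ Icc 1 x ×ˢ Icc 1 x, |cor v Y ((P α β i.1 : ℤ) - (P α β i.2 : ℤ))| := by
    refine sum_le_sum fun i _ => (le_abs_self _).trans ?_
    rw [abs_mul, abs_mul]
    calc |u i.1| * |u i.2| * |cor v Y ((P α β i.1 : ℤ) - (P α β i.2 : ℤ))|
        ≤ 1 * |cor v Y ((P α β i.1 : ℤ) - (P α β i.2 : ℤ))| :=
          mul_le_mul_of_nonneg_right (mul_le_one₀ (hu _) (abs_nonneg _) (hu _)) (abs_nonneg _)
      _ = _ := one_mul _
  refine h1.trans ?_
  have hmaps : ∀ i ∈ Icc 1 x ×ˢ Icc 1 x, (P α β i.1 : ℤ) - (P α β i.2 : ℤ) ∈ Icc (-(Y : ℤ)) Y := by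
    intro i hi
    rw [mem_product] at hi
    have e1 := hPle i.1 hi.1
    have e2 := hPle i.2 hi.2
    rw [mem_Icc]
    omega
  rw [← sum_fiberwise_of_maps_to hmaps]
  have h2 : ∀ h ∈ Icc (-(Y : ℤ)) Y, ∑ i ∈ (Icc 1 x ×ˢ Icc 1 x).filter (fun i => (P α β i.1 : ℤ) - (P α β i.2 : ℤ) = h),
      |cor v Y ((P α β i.1 : ℤ) - (P α β i.2 : ℤ))| ≤
      (if h = 0 then x * M else 0) + (if h ∈ (mul Y d).erase 0 then (h.natAbs.divisors.card : ℝ) * |cor v Y h| else 0) := by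
    intro h hh
    have e1 : ∑ i ∈ (Icc 1 x ×ˢ Icc 1 x).filter (fun i => (P α β i.1 : ℤ) - (P α β i.2 : ℤ) = h),
        |cor v Y ((P α β i.1 : ℤ) - (P α β i.2 : ℤ))| =
        (((Icc 1 x ×ˢ Icc 1 x).filter (fun i => (P α β i.1 : ℤ) - (P α β i.2 : ℤ) = h)).card : ℝ) * |cor v Y h| := by
      rw [← nsmul_eq_mul, ← sum_const]
      refine sum_congr rfl fun i hi => ?_
      rw [mem_filter] at hi
      rw [hi.2]
    rw [e1]
    by_cases h0 : h = 0
    · subst h0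
      rw [if_pos rfl, if_neg (fun h => (mem_erase.1 h).1 rfl), add_zero, cor_zero,
        abs_of_nonneg (sum_nonneg fun _ _ => sq_nonneg _)]
      refine mul_le_mul ?_ hM (sum_nonneg fun _ _ => sq_nonneg _) (Nat.cast_nonneg _)
      exact_mod_cast rep_zero α β x hα
    · rw [if_neg h0, zero_add]
      by_cases hd2 : (d : ℤ) ∣ h
      · have hmem : h ∈ (mul Y d).erase 0 := by
          rw [mem_erase]
          refine ⟨h0, ?_⟩
          unfold mul
          rw [mem_filter]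
          exact ⟨hh, hd2⟩
        rw [if_pos hmem]
        refine mul_le_mul_of_nonneg_right ?_ (abs_nonneg _)
        exact_mod_cast rep_le α β x hα h h0
      · rw [cor_supp v Y d hv h hd2, abs_zero, mul_zero]
        split_ifs
        · simp
        · exact le_rfl
  refine (sum_le_sum h2).trans ?_
  rw [sum_add_distrib]
  refine add_le_add ?_ ?_
  · rw [← sum_filter, sum_const, nsmul_eq_mul]
    have hc : ((Icc (-(Y : ℤ)) Y).filter (fun h => h = 0)).card ≤ 1 := by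
      rw [card_le_one]
      intro a ha b hb
      rw [mem_filter] at ha hb
      rw [ha.2, hb.2]
    calc (((Icc (-(Y : ℤ)) Y).filter (fun h => h = 0)).card : ℝ) * (x * M) ≤ 1 * (x * M) :=
          mul_le_mul_of_nonneg_right (by exact_mod_cast hc) (by positivity)
      _ = _ := one_mul _
  · have e1 : ∑ h ∈ Icc (-(Y : ℤ)) Y, (if h ∈ (mul Y d).erase 0 then (h.natAbs.divisors.card : ℝ) * |cor v Y h| else 0) =
        ∑ h ∈ (mul Y d).erase 0, (h.natAbs.divisors.card : ℝ) * |cor v Y h| := by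
      rw [← sum_filter]
      refine sum_congr ?_ fun _ _ => rfl
      ext h
      rw [mem_filter]
      constructor
      · exact fun h => h.2
      · intro hh
        refine ⟨?_, hh⟩
        have := (mem_erase.1 hh).2
        unfold mul at this
        exact (mem_filter.1 this).1
    rw [e1]
    refine Real.le_sqrt_of_sq_le ?_
    refine (sum_mul_sq_le_sq_mul_sq _ _ _).trans ?_
    refine mul_le_mul (tau_mul_set Y d hd) ?_ (sum_nonneg fun _ _ => sq_nonneg _)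
      (mul_nonneg (by norm_num) (mul_nonneg (by positivity) (tsum_nonneg _ _)))
    simp only [sq_abs]
    calc ∑ h ∈ (mul Y d).erase 0, cor v Y h ^ 2 ≤ SC v Y d :=
          sum_le_sum_of_subset_of_nonneg (erase_subset _ _) fun _ _ _ => sq_nonneg _
      _ ≤ S ^ 2 * ∑ n ∈ Icc 1 Y, v n ^ 2 := SC_sup v Y d hd S hS
      _ ≤ S ^ 2 * M := mul_le_mul_of_nonneg_left hM (sq_nonneg _)

end Pool.Agent.U325.PQ
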