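import Pool.Agent.U325.PQ.Mean

/-!
Sieve functions of the values `α n² + β n + c` with arbitrary coefficients depending on `n` do not see the
parity of the number of prime factors of the values, for almost all `c`.
-/

set_option autoImplicit false

namespace Pool.Agent.U325.PQ

open Finset Filter Topology
open Pool.Agent.U325.PB

/-- the bounds for large `x` -/
lemma env (C U : ℕ) (δ : ℝ) (hδ : 0 < δ) (B : ℝ) : ∃ x₀ : ℕ, ∀ x : ℕ, x₀ ≤ x → 1 ≤ x ∧ 1 ≤ Real.log x ∧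
    B ≤ Real.log x ∧ Real.log x ^ U ≤ x ∧ (top δ x : ℝ) ≤ x / Real.log x ^ U ∧
    ∀ α β : ℕ, 1 ≤ α → (α : ℝ) ≤ Real.log x ^ C → (β : ℝ) ≤ x * Real.log x ^ C →
      ((α * x ^ 2 + β * x + x ^ 2 : ℕ) : ℝ) ≤ 3 * (x : ℝ) ^ 2 * Real.log x ^ C ∧
      1 + Real.log ((α * x ^ 2 + β * x + x ^ 2 : ℕ) : ℝ) ≤ 4 * Real.log x ∧
      ∀ d : ℕ, 1 ≤ d → (d : ℝ) ≤ (x : ℝ) ^ 2 * Real.exp (-(Real.log x) ^ δ) → ∀ t : ℝ,
        ‖G (vE d) (α * x ^ 2 + β * x + x ^ 2) t‖ ≤ ((α * x ^ 2 + β * x + x ^ 2 : ℕ) : ℝ) / d / Real.log x ^ U := by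
  obtain ⟨X₁, h1⟩ := sup_mult (δ / 2) (by positivity) U
  obtain ⟨X₂, h2⟩ := ev_exp δ hδ U (max B 3)
  obtain ⟨X₃, h3⟩ := ev_exp 1 (by norm_num) (U + C + 1) 3
  refine ⟨max X₁ (max X₂ X₃), fun x hx => ?_⟩
  obtain ⟨hx1, hL1, hLB, hexp⟩ := h2 x (((le_max_left _ _).trans (le_max_right _ _)).trans hx)
  obtain ⟨-, -, hL3, hexp2⟩ := h3 x (((le_max_right _ _).trans (le_max_right _ _)).trans hx)
  have hxX : X₁ ≤ x := (le_max_left _ _).trans hx
  have hxr : (1 : ℝ) ≤ x := by exact_mod_cast hx1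
  have hx0 : (0 : ℝ) < x := by linarith
  set L := Real.log x with hL
  have hL0 : 0 < L := by linarith
  rw [Real.rpow_one, hL, Real.exp_log hx0, ← hL] at hexp2
  have hB : B ≤ L := (le_max_left _ _).trans hLB
  have hxU : L ^ U ≤ x := (pow_le_pow_right₀ hL1 (by omega)).trans hexp2
  have hxC : 3 * L ^ C ≤ x := by
    calc 3 * L ^ C ≤ L * L ^ C := mul_le_mul_of_nonneg_right hL3 (by positivity)
      _ = L ^ (C + 1) := by ring
      _ ≤ L ^ (U + C + 1) := pow_le_pow_right₀ hL1 (by omega)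
      _ ≤ x := hexp2
  have htop : (top δ x : ℝ) ≤ x / L ^ U := by
    refine (Nat.floor_le (by positivity)).trans ?_
    rw [Real.exp_neg, div_eq_mul_inv]
    exact mul_le_mul_of_nonneg_left (inv_anti₀ (by positivity) hexp) hx0.le
  refine ⟨hx1, hL1, hB, hxU, htop, fun α β hα hαL hβL => ?_⟩
  set Y : ℕ := α * x ^ 2 + β * x + x ^ 2 with hY
  have hY3 : (Y : ℝ) ≤ 3 * (x : ℝ) ^ 2 * L ^ C := by
    rw [hY]
    push_cast
    have e1 : (α : ℝ) * (x : ℝ) ^ 2 ≤ L ^ C * (x : ℝ) ^ 2 := mul_le_mul_of_nonneg_right hαL (by positivity)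
    have e2 : (β : ℝ) * x ≤ x * L ^ C * x := mul_le_mul_of_nonneg_right hβL hx0.le
    have e3 : (x : ℝ) ^ 2 ≤ L ^ C * (x : ℝ) ^ 2 := le_mul_of_one_le_left (by positivity) (one_le_pow₀ hL1)
    nlinarith
  have hYx : (x : ℝ) ^ 2 ≤ Y := by
    have : x ^ 2 ≤ Y := by omega
    exact_mod_cast this
  have hYx1 : x ≤ Y := by
    have : x ≤ x ^ 2 := by nlinarith
    omega
  have hY0 : (0 : ℝ) < Y := lt_of_lt_of_le (by positivity) hYx
  have hYx3 : (Y : ℝ) ≤ (x : ℝ) ^ 3 := by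
    calc (Y : ℝ) ≤ 3 * (x : ℝ) ^ 2 * L ^ C := hY3
      _ = (3 * L ^ C) * (x : ℝ) ^ 2 := by ring
      _ ≤ x * (x : ℝ) ^ 2 := mul_le_mul_of_nonneg_right hxC (by positivity)
      _ = (x : ℝ) ^ 3 := by ring
  have hlogY : Real.log Y ≤ 3 * L := by
    have := Real.log_le_log hY0 hYx3
    rwa [Real.log_pow] at this
  have hlogY2 : L ≤ Real.log Y := Real.log_le_log hx0 (by exact_mod_cast hYx1)
  refine ⟨hY3, by linarith, fun d hd hdx t => ?_⟩
  have hlog2 : (Real.log Y) ^ (δ / 2) ≤ L ^ δ := by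
    calc (Real.log Y) ^ (δ / 2) ≤ (L ^ (2 : ℕ)) ^ (δ / 2) :=
          Real.rpow_le_rpow (by linarith) (by nlinarith) (by positivity)
      _ = L ^ δ := by
          rw [← Real.rpow_natCast, ← Real.rpow_mul hL0.le]
          congr 1
          push_cast
          ring
  have hdY : (d : ℝ) ≤ Y * Real.exp (-(Real.log Y) ^ (δ / 2)) := by
    refine hdx.trans (mul_le_mul hYx (Real.exp_le_exp.2 (by linarith)) (Real.exp_pos _).le hY0.le)
  have hsup := h1 Y (hxX.trans hYx1) d hd hdY t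
  have hdr : (0 : ℝ) < d := by exact_mod_cast hd
  have hfin : (Y : ℝ) / d / Real.log Y ^ U ≤ Y / d / L ^ U :=
    div_le_div_of_nonneg_left (by positivity) (by positivity) (pow_le_pow_left₀ hL0.le hlogY2 U)
  refine le_trans ?_ (hsup.trans hfin)
  unfold G vE
  exact le_rfl

/-- sieve weights of level `Z exp (-(log x) ^ δ)` -/
def IsSieve (C : ℕ) (δ : ℝ) (x : ℕ) (Z : ℝ) (ρ : ℕ → ℝ) : Prop :=
  ∀ d : ℕ, |ρ d| ≤ Real.log x ^ C * (d.divisors.card : ℝ) ^ C ∧ (Z * Real.exp (-(Real.log x) ^ δ) < d → ρ d = 0)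

/-- `∑_k ∑_{d ∣ α n² + β n + c} (ρ_k(d) a_k(d, n) + σ_k(d) b_k(n))` -/
noncomputable def comb {K : ℕ} (α β c : ℕ) (a : Fin K → ℕ → ℕ → ℝ) (b σ ρ : Fin K → ℕ → ℝ) (n : ℕ) : ℝ :=
  ∑ k, ∑ d ∈ (α * n ^ 2 + β * n + c).divisors, (ρ k d * a k d n + σ k d * b k n)

/-- the sum over all `k` -/
noncomputable def total {K : ℕ} (α β x C Z : ℕ) (a : Fin K → ℕ → ℕ → ℝ) (b σ : Fin K → ℕ → ℝ) (c : ℕ) : ℝ :=
  ∑ k, (∑ d ∈ Icc 1 Z, (d.divisors.card : ℝ) ^ C * |T1 α β x (a k) d c| + |T2 α β x (b k) (σ k) c|)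

lemma comb_bound {K : ℕ} (C : ℕ) (δ : ℝ) (α β x c : ℕ) (hL : 1 ≤ Real.log x) (hc : 1 ≤ c)
    (a : Fin K → ℕ → ℕ → ℝ) (b σ ρ : Fin K → ℕ → ℝ) (hρ : ∀ k, IsSieve C δ x x (ρ k)) :
    |∑ n ∈ Icc 1 x, lam (α * n ^ 2 + β * n + c) * comb α β c a b σ ρ n| ≤
      Real.log x ^ C * total α β x C (top δ x) a b σ c := by
  have hLC : 1 ≤ Real.log x ^ C := one_le_pow₀ hL
  have h1 : ∑ n ∈ Icc 1 x, lam (α * n ^ 2 + β * n + c) * comb α β c a b σ ρ n =
      ∑ k, (∑ d ∈ Icc 1 (top δ x), ρ k d * T1 α β x (a k) d c + T2 α β x (b k) (σ k) c) := by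
    unfold comb
    simp only [mul_sum]
    rw [sum_comm]
    refine sum_congr rfl fun k _ => ?_
    have e1 : ∑ d ∈ Icc 1 (top δ x), ρ k d * T1 α β x (a k) d c =
        ∑ n ∈ Icc 1 x, ∑ d ∈ Icc 1 (top δ x), ρ k d * (a k d n * vE d (P α β n + c)) := by
      unfold T1
      simp only [mul_sum]
      rw [sum_comm]
    rw [e1]
    unfold T2
    rw [← sum_add_distrib]
    refine sum_congr rfl fun n hn => ?_
    set m := α * n ^ 2 + β * n + c with hm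
    have hPm : P α β n + c = m := by unfold P; rw [hm]
    rw [hPm]
    have hm1 : 1 ≤ m := by omega
    have e2 : ∑ d ∈ Icc 1 (top δ x), ρ k d * (a k d n * vE d m) = ∑ d ∈ m.divisors, lam m * (ρ k d * a k d n) := by
      have f1 : ∑ d ∈ Icc 1 (top δ x), ρ k d * (a k d n * vE d m) =
          ∑ d ∈ (Icc 1 (top δ x)).filter (fun d => d ∣ m), lam m * (ρ k d * a k d n) := by
        rw [sum_filter]
        refine sum_congr rfl fun d _ => ?_
        unfold vE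
        split_ifs
        · ring
        · ring
      rw [f1]
      refine sum_subset ?_ ?_
      · intro d hd
        rw [mem_filter] at hd
        exact Nat.mem_divisors.2 ⟨hd.2, by omega⟩
      · intro d hd hd2
        rw [Nat.mem_divisors] at hd
        have h2 : ρ k d = 0 := by
          refine (hρ k d).2 ?_
          by_contra hcon
          push Not at hcon
          apply hd2
          rw [mem_filter, mem_Icc]
          exact ⟨⟨Nat.pos_of_dvd_of_pos hd.1 (by omega), Nat.le_floor hcon⟩, hd.1⟩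
        rw [h2, zero_mul, mul_zero]
    rw [e2]
    unfold ww
    rw [mul_sum, mul_sum, ← sum_add_distrib]
    exact sum_congr rfl fun d _ => by ring
  rw [h1]
  unfold total
  rw [mul_sum]
  refine (abs_sum_le_sum_abs _ _).trans (sum_le_sum fun k _ => ?_)
  refine (abs_add_le _ _).trans ?_
  rw [mul_add]
  refine add_le_add ?_ (le_mul_of_one_le_left (abs_nonneg _) hLC)
  refine (abs_sum_le_sum_abs _ _).trans ?_
  rw [mul_sum]
  refine sum_le_sum fun d _ => ?_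
  rw [abs_mul, ← mul_assoc]
  exact mul_le_mul_of_nonneg_right ((hρ k) d).1 (abs_nonneg _)

/-- **The exceptional set.** -/
theorem few (A C : ℕ) (δ : ℝ) (hδ : 0 < δ) : ∃ x₀ : ℕ, ∀ x : ℕ, x₀ ≤ x → 1 ≤ Real.log x ∧
    ∀ (K : ℕ) (α β : ℕ) (a : Fin K → ℕ → ℕ → ℝ) (b σ : Fin K → ℕ → ℝ), (K : ℝ) ≤ Real.log x ^ C → 1 ≤ α →
    (α : ℝ) ≤ Real.log x ^ C → (β : ℝ) ≤ x * Real.log x ^ C → (∀ k d n, |a k d n| ≤ 1) → (∀ k n, |b k n| ≤ 1) →
    (∀ k, IsSieve C δ x ((x : ℝ) ^ 2) (σ k)) →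
    ∃ E : Finset ℕ, (E.card : ℝ) ≤ (x : ℝ) ^ 2 / Real.log x ^ A ∧ ∀ c ∈ Icc 1 (x ^ 2), c ∉ E →
      Real.log x ^ C * total α β x C (top δ x) a b σ c ≤ x / Real.log x ^ A := by
  set V : ℕ := 2 * A + 2 * C + 1 with hV
  set U : ℕ := (2 ^ (2 * C) + 2 * C + 7 + 2 * V) + (2 ^ (2 * C + 2) + 2 ^ C + 5 * C + 5 + 2 * V) with hU
  obtain ⟨x₀, h1⟩ := env C U δ hδ (21 * 4 ^ (6 + 2 ^ (2 * C)) + 21 * 4 ^ (4 + 2 ^ C + 2 ^ (2 * C + 2)) + 2)
  refine ⟨x₀, fun x hx => ?_⟩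
  obtain ⟨hx1, hL1, hLB, hxU, htop, hαβ⟩ := h1 x hx
  refine ⟨hL1, fun K α β a b σ hK hα hαL hβL ha hb hσ => ?_⟩
  obtain ⟨hY3, hlog, hsup⟩ := hαβ α β hα hαL hβL
  have hxr : (1 : ℝ) ≤ x := by exact_mod_cast hx1
  have hx0 : (0 : ℝ) < x := by linarith
  set L := Real.log x with hLd
  have hL0 : 0 < L := by linarith
  have q1 : (0 : ℝ) < 21 * 4 ^ (6 + 2 ^ (2 * C)) := by positivity
  have q2 : (0 : ℝ) < 21 * 4 ^ (4 + 2 ^ C + 2 ^ (2 * C + 2)) := by positivity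
  set Z := top δ x with hZ
  set Y : ℕ := α * x ^ 2 + β * x + x ^ 2 with hY
  set Z2 : ℕ := ⌊(x : ℝ) ^ 2 * Real.exp (-(Real.log x) ^ δ)⌋₊ with hZ2
  have hexp1 : Real.exp (-(Real.log x) ^ δ) ≤ 1 := by
    rw [Real.exp_le_one_iff]
    have : 0 ≤ L ^ δ := Real.rpow_nonneg hL0.le _
    linarith
  have hZr : (Z : ℝ) ≤ x * Real.exp (-(Real.log x) ^ δ) := Nat.floor_le (by positivity)
  have hZ2r : (Z2 : ℝ) ≤ (x : ℝ) ^ 2 * Real.exp (-(Real.log x) ^ δ) := Nat.floor_le (by positivity)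
  have hZ2r' : (x : ℝ) * Real.exp (-(Real.log x) ^ δ) ≤ (x : ℝ) ^ 2 * Real.exp (-(Real.log x) ^ δ) :=
    mul_le_mul_of_nonneg_right (by nlinarith) (Real.exp_pos _).le
  have hx2Y : x ^ 2 ≤ Y := by omega
  have hZ2Y : Z2 ≤ Y := by
    refine le_trans ?_ hx2Y
    have : (Z2 : ℝ) ≤ ((x ^ 2 : ℕ) : ℝ) := by
      push_cast
      exact hZ2r.trans (mul_le_of_le_one_right (by positivity) hexp1)
    exact_mod_cast this
  have hZY : Z ≤ Y := by
    refine le_trans ?_ hx2Y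
    have : (Z : ℝ) ≤ ((x ^ 2 : ℕ) : ℝ) := by
      push_cast
      exact (hZr.trans hZ2r').trans (mul_le_of_le_one_right (by positivity) hexp1)
    exact_mod_cast this
  have hS1 : ∀ d ∈ Icc 1 Z, ∀ t : ℝ, ‖G (vE d) Y t‖ ≤ Y / d / L ^ U := by
    intro d hd t
    rw [mem_Icc] at hd
    refine hsup d hd.1 ?_ t
    have : (d : ℝ) ≤ Z := by exact_mod_cast hd.2
    exact (this.trans hZr).trans hZ2r'
  have hS2 : ∀ d ∈ Icc 1 Z2, ∀ t : ℝ, ‖G (vE d) Y t‖ ≤ Y / d / L ^ U := by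
    intro d hd t
    rw [mem_Icc] at hd
    refine hsup d hd.1 ?_ t
    have : (d : ℝ) ≤ Z2 := by exact_mod_cast hd.2
    exact this.trans hZ2r
  have hm1 : ∀ k, ∑ c ∈ Icc 1 (x ^ 2), ∑ d ∈ Icc 1 Z, (d.divisors.card : ℝ) ^ C * |T1 α β x (a k) d c| ≤
      (x : ℝ) ^ 3 / L ^ V := fun k =>
    mean1 x Y α β Z C U V L hL1 hx1 hα le_rfl hY3 hlog hS1 htop hZY (by rw [hU]; exact Nat.le_add_right _ _) (by linarith) (a k) (ha k)
  have hm2 : ∀ k, ∑ c ∈ Icc 1 (x ^ 2), |T2 α β x (b k) (σ k) c| ≤ (x : ℝ) ^ 3 / L ^ V := fun k =>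
    mean2 x Y α β Z2 C U V L hL1 hx1 hα le_rfl hY3 hlog hS2 hxU hZ2Y (by rw [hU]; exact Nat.le_add_left _ _) (by linarith) (b k) (σ k) (hb k)
      (fun e he => (hσ k e).2 (Nat.lt_of_floor_lt he)) (fun e => (hσ k e).1)
  set thr : ℝ := x / L ^ (A + C) with hthr
  have hthr0 : 0 < thr := by positivity
  refine ⟨(Icc 1 (x ^ 2)).filter (fun c => thr < total α β x C Z a b σ c), ?_, ?_⟩
  · set E := (Icc 1 (x ^ 2)).filter (fun c => thr < total α β x C Z a b σ c) with hE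
    have hsc0 : ∀ c, 0 ≤ total α β x C Z a b σ c := fun c =>
      sum_nonneg fun k _ => add_nonneg (sum_nonneg fun d _ => by positivity) (abs_nonneg _)
    have hcount : (E.card : ℝ) * thr ≤ ∑ c ∈ Icc 1 (x ^ 2), total α β x C Z a b σ c := by
      calc (E.card : ℝ) * thr = ∑ c ∈ E, thr := by rw [sum_const, nsmul_eq_mul]
        _ ≤ ∑ c ∈ E, total α β x C Z a b σ c := sum_le_sum fun c hc => (mem_filter.1 hc).2.le
        _ ≤ ∑ c ∈ Icc 1 (x ^ 2), total α β x C Z a b σ c :=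
            sum_le_sum_of_subset_of_nonneg (filter_subset _ _) fun c _ _ => hsc0 c
    have hsum : ∑ c ∈ Icc 1 (x ^ 2), total α β x C Z a b σ c ≤ L ^ C * (2 * ((x : ℝ) ^ 3 / L ^ V)) := by
      unfold total
      rw [sum_comm]
      calc ∑ k, ∑ c ∈ Icc 1 (x ^ 2), (∑ d ∈ Icc 1 Z, (d.divisors.card : ℝ) ^ C * |T1 α β x (a k) d c| +
              |T2 α β x (b k) (σ k) c|)
          ≤ ∑ _k : Fin K, 2 * ((x : ℝ) ^ 3 / L ^ V) := by
            refine sum_le_sum fun k _ => ?_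
            rw [sum_add_distrib]
            have := hm1 k
            have := hm2 k
            linarith
        _ = K * (2 * ((x : ℝ) ^ 3 / L ^ V)) := by
            rw [sum_const, card_univ, Fintype.card_fin, nsmul_eq_mul]
        _ ≤ _ := mul_le_mul_of_nonneg_right hK (by positivity)
    have h4 : (E.card : ℝ) * thr ≤ (x : ℝ) ^ 2 / L ^ A * thr := by
      refine (hcount.trans hsum).trans ?_
      rw [hthr]
      have e1 : L ^ C * (2 * ((x : ℝ) ^ 3 / L ^ V)) = 2 * ((x : ℝ) ^ 3 / L ^ (2 * A + C + 1)) := by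
        rw [hV, show 2 * A + 2 * C + 1 = (2 * A + C + 1) + C by ring, pow_add L (2 * A + C + 1) C]
        field_simp
      have e2 : (x : ℝ) ^ 2 / L ^ A * (x / L ^ (A + C)) = L * ((x : ℝ) ^ 3 / L ^ (2 * A + C + 1)) := by
        rw [show 2 * A + C + 1 = A + (A + C) + 1 by ring, pow_add L (A + (A + C)) 1, pow_add L A (A + C), pow_one]
        field_simp
      rw [e1, e2]
      exact mul_le_mul_of_nonneg_right (by linarith) (by positivity)
    exact le_of_mul_le_mul_right h4 hthr0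
  · intro c hc hcE
    have h3 : total α β x C Z a b σ c ≤ thr := by
      by_contra hcon
      push Not at hcon
      exact hcE (mem_filter.2 ⟨hc, hcon⟩)
    calc L ^ C * total α β x C Z a b σ c ≤ L ^ C * thr := mul_le_mul_of_nonneg_left h3 (by positivity)
      _ = x / L ^ A := by
          rw [hthr, pow_add]
          field_simp

end Pool.Agent.U325.PQ
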